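import Pool.Agent.NSepM.Far

/-!
MP_ea350a_co, Q1: near 4-colourings of graphs on surfaces whose separating triangles are far
apart.
-/

set_option autoImplicit false

open Pool.Agent.NSep in
theorem Pool.Agent.Results.MP_ea350a_co.FarSeparatingTriangles.result
    (V F : Type) [Fintype V] [DecidableEq V] [Fintype F] (K : SimpleGraph V) (hK : K.Connected)
    (C : Cellulation K F) (G : SimpleGraph V) (hGK : G ≤ K) (t : ℕ) (hfar : C.FarApart G t 15) :
    ∃ X : Finset V, (X.card : ℤ) ≤ max 0 (285 + 210 * (t : ℤ) - 660 * chi K F) ∧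
      (G.induce {v | v ∉ X}).Colorable 4 ∧
      ∀ L : V → Finset ℕ, (∀ v, 4 ≤ (L v).card) →
        ∃ c : V → ℕ, (∀ v, c v ∈ L v) ∧ ∀ u v, u ∉ X → v ∉ X → G.Adj u v → c u ≠ c v := by
  obtain ⟨X, hX, h⟩ := farM C hK G hGK t hfar
  have hl : ∀ L : V → Finset ℕ, (∀ v, 4 ≤ (L v).card) →
      ∃ c : V → ℕ, (∀ v, c v ∈ L v) ∧ ∀ u v, u ∉ X → v ∉ X → G.Adj u v → c u ≠ c v := by
    intro L hL
    obtain ⟨c, hc, hp⟩ := h L hL
    exact ⟨c, hc, fun u v hu hv huv => hp u (by simpa using hu) v (by simpa using hv) huv⟩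
  refine ⟨X, hX, ?_, hl⟩
  obtain ⟨c, hc, hprop⟩ := hl (fun _ => Finset.range 4) (fun _ => by simp)
  refine ⟨SimpleGraph.Coloring.mk (fun v => (⟨c v.1, by simpa using hc v.1⟩ : Fin 4)) ?_⟩
  intro u v huv hc'
  have h1 : c u.1 = c v.1 := by simpa using hc'
  exact hprop u.1 v.1 u.2 v.2 huv h1
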