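import Pool.Agent.NSep.Faces
import Pool.Agent.NSep.Col
import Pool.Agent.NSep.Core
import Pool.Agent.NSep.K5

/-!
MP_ea350a_co, Q1: near 4-colourings of graphs on surfaces which have few separating triangles.
-/

set_option autoImplicit false

namespace Pool.Agent.NSep

/-- The theorem on a surface: `t` bounds the number of triangles with pairwise disjoint sides. -/
def OnSurface : Prop :=
  ∀ (V F : Type) [Fintype V] [DecidableEq V] [Fintype F] (K : SimpleGraph V),
    K.Connected → ∀ (C : Cellulation K F) (G : SimpleGraph V), G ≤ K →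
    ∀ t : ℕ, (∀ P : Finset (Finset V), C.Packing G P → P.card ≤ t) →
      ∃ X : Finset V, (X.card : ℤ) ≤ max 0 (1 - 2 * chi K F + (t : ℤ) / 2) ∧
        (∀ W : Finset V, W.Nonempty → Disjoint W X →
          ∃ v ∈ W, (G.neighborSet v ∩ (W : Set V)).ncard ≤ 3) ∧
        (G.induce {v | v ∉ X}).Colorable 4 ∧
        ∀ L : V → Finset ℕ, (∀ v, 4 ≤ (L v).card) →
          ∃ c : V → ℕ, (∀ v, c v ∈ L v) ∧ ∀ u v, u ∉ X → v ∉ X → G.Adj u v → c u ≠ c v

/-- `K_5` on the torus, no triangle has a side. -/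
def OnTorus : Prop :=
  ∃ C : Cellulation (⊤ : SimpleGraph (Fin 5)) (Fin 5),
    chi (⊤ : SimpleGraph (Fin 5)) (Fin 5) = 0 ∧
    (∀ T S : Finset (Fin 5), ¬ ((⊤ : SimpleGraph (Fin 5)).IsNClique 3 T ∧ C.Side T S)) ∧
    ¬ (⊤ : SimpleGraph (Fin 5)).Colorable 4

end Pool.Agent.NSep

open Pool.Agent.NSep in
theorem Pool.Agent.Results.MP_ea350a_co.FewSeparatingTriangles.result : OnSurface ∧ OnTorus := by
  classical
  refine ⟨?_, k5, k5_chi, k5_free, k5_col⟩
  intro V F _ _ _ K hK C G hGK t ht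
  obtain ⟨X, hX, h⟩ := degenerate C hK G hGK t ht
  exact ⟨X, hX, h, colour G X h, lists G X h⟩
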